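import Pool.Agent.N929.ON.Stm

/-!
# ON/FE: finite energy of the loop O(n) weights
-/

set_option autoImplicit false

namespace Pool.Agent.N499.ON

open Pool.Agent.N929.ON Finset
open scoped Classical

noncomputable section

/-- the orbit -/
def orb (σ : ℤ × ℤ → Bool) (s : St) : Set St := {t | ∃ i, (step σ)^[i] s = t}

/-- periodic states -/
def Per (σ : ℤ × ℤ → Bool) (s : St) : Prop := ∃ i, 1 ≤ i ∧ (step σ)^[i] s = s

theorem per_mul {σ : ℤ × ℤ → Bool} {s : St} {i : ℕ} (h : (step σ)^[i] s = s) (m : ℕ) :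
    (step σ)^[i * m] s = s := by
  rw [Function.iterate_mul]
  exact Function.iterate_fixed h m

theorem orb_eq {σ : ℤ × ℤ → Bool} {s t : St} (hp : Per σ s) (ht : t ∈ orb σ s) :
    orb σ t = orb σ s := by
  obtain ⟨i, hi, h⟩ := hp
  obtain ⟨j, rfl⟩ := ht
  ext u
  constructor
  · rintro ⟨l, rfl⟩
    exact ⟨l + j, Function.iterate_add_apply _ _ _ _⟩
  · rintro ⟨l, rfl⟩
    have h1 : (step σ)^[i * j - j] ((step σ)^[j] s) = s := by
      rw [← Function.iterate_add_apply, Nat.sub_add_cancel (Nat.le_mul_of_pos_left j hi)]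
      exact per_mul h j
    refine ⟨l + (i * j - j), ?_⟩
    rw [Function.iterate_add_apply, h1]

theorem per_iter {σ : ℤ × ℤ → Bool} {s : St} (hp : Per σ s) (j : ℕ) :
    Per σ ((step σ)^[j] s) := by
  obtain ⟨i, hi, h⟩ := hp
  refine ⟨i, hi, ?_⟩
  rw [← Function.iterate_add_apply, add_comm, Function.iterate_add_apply, h]

theorem mem_loops {σ : ℤ × ℤ → Bool} {O : Set St} :
    O ∈ loops σ ↔ ∃ s, Val σ s ∧ Per σ s ∧ O = orb σ s := Iff.rfl

theorem val_iter (hinj : S_INJ) {σ : ℤ × ℤ → Bool} {s : St} (h : Val σ s) (j : ℕ) :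
    Val σ ((step σ)^[j] s) := by
  induction j with
  | zero => exact h
  | succ j ih =>
    rw [Function.iterate_succ_apply']
    exact (hinj σ).1 _ ih

/-! ### finite sets of states -/

/-- the states which have the face `f` on one side -/
def near (f : ℤ × ℤ) : Finset St :=
  (univ.image fun k : Fin 6 => ((f, k) : St)) ∪ (univ.image fun k : Fin 6 => ((f - dir k, k) : St))

/-- the states which touch the face `f` -/
def touch (f : ℤ × ℤ) : Finset St :=
  near f ∪ (univ.image fun k : Fin 6 => ((f - dir (k + 1), k) : St))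

theorem im_card (g : Fin 6 → St) : (univ.image g).card ≤ 6 := by
  refine card_image_le.trans ?_
  simp

theorem near_card (f : ℤ × ℤ) : (near f).card ≤ 12 := by
  unfold near
  refine (card_union_le _ _).trans ?_
  have h1 := im_card fun k : Fin 6 => ((f, k) : St)
  have h2 := im_card fun k : Fin 6 => ((f - dir k, k) : St)
  omega

theorem touch_card (f : ℤ × ℤ) : (touch f).card ≤ 18 := by
  unfold touch
  refine (card_union_le _ _).trans ?_
  have h1 := near_card f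
  have h2 := im_card fun k : Fin 6 => ((f - dir (k + 1), k) : St)
  omega

theorem mem_near {f : ℤ × ℤ} {s : St} (h : s.1 = f ∨ rt s = f) : s ∈ near f := by
  unfold near
  rw [mem_union, mem_image, mem_image]
  rcases h with h | h
  · left
    exact ⟨s.2, mem_univ _, by rw [← h]⟩
  · right
    refine ⟨s.2, mem_univ _, ?_⟩
    rw [← h]
    unfold rt
    rw [add_sub_cancel_right]

theorem mem_touch {f : ℤ × ℤ} {s : St} (h : Tch f s) : s ∈ touch f := by
  unfold touch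
  rw [mem_union, mem_image]
  rcases h with h | h | h
  · exact Or.inl (mem_near (Or.inl h))
  · exact Or.inl (mem_near (Or.inr h))
  · right
    refine ⟨s.2, mem_univ _, ?_⟩
    rw [← h]
    unfold front
    rw [add_sub_cancel_right]

/-- the states near the domain -/
def FD (W L : ℕ) : Finset St := (Dom W L).biUnion near

theorem mem_FD {W L : ℕ} {s : St} (h : s.1 ∈ Dom W L ∨ rt s ∈ Dom W L) : s ∈ FD W L := by
  unfold FD
  rw [mem_biUnion]
  rcases h with h | h
  · exact ⟨_, h, mem_near (Or.inl rfl)⟩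
  · exact ⟨_, h, mem_near (Or.inr rfl)⟩

/-! ### the boundary -/

theorem mem_Dom {W L : ℕ} {u v : ℤ} :
    (u, v) ∈ Dom W L ↔ (1 ≤ u ∧ u ≤ W) ∧ 1 ≤ v ∧ v ≤ L := by
  unfold Dom
  rw [mem_product, mem_Icc, mem_Icc]

theorem bd_true {L : ℕ} {a b u v : ℤ} : bd L a b (u, v) = true ↔
    (v ≤ 0 ∧ u ≤ a) ∨ (0 < v ∧ v ≤ L ∧ u ≤ 0) ∨ (0 < v ∧ L < v ∧ u ≤ b) := by
  unfold bd
  split_ifs with h1 h2
  · simp only [decide_eq_true_eq]
    simp only at h1
    omega
  · simp only [decide_eq_true_eq]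
    simp only at h1 h2
    omega
  · simp only [decide_eq_true_eq]
    simp only at h1 h2
    omega

theorem bd_false {L : ℕ} {a b u v : ℤ} : bd L a b (u, v) = false ↔
    (v ≤ 0 ∧ a < u) ∨ (0 < v ∧ v ≤ L ∧ 0 < u) ∨ (0 < v ∧ L < v ∧ b < u) := by
  rw [← Bool.not_eq_true, bd_true]
  omega

theorem bdry {W L : ℕ} {a b : ℤ} {σ : ℤ × ℤ → Bool} (hP : Par W L a b) (hB : Bdy W L a b σ)
    {s : St} (hv : Val σ s) (h1 : s.1 ∉ Dom W L) (h2 : rt s ∉ Dom W L) :
    (∃ v : ℤ, v ≤ 0 ∧ (s = ((a, v), 0) ∨ s = ((a, v), 5))) ∨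
    (∃ v : ℤ, L < v ∧ (s = ((b, v), 0) ∨ s = ((b, v), 5))) := by
  obtain ⟨p1, p2, p3, p4, p5⟩ := hP
  obtain ⟨v1, v2⟩ := hv
  rw [hB _ h1] at v1
  rw [hB _ h2] at v2
  obtain ⟨⟨u, v⟩, k⟩ := s
  have hL : (1 : ℤ) ≤ L := by exact_mod_cast p1
  have e0 : rt ((u, v), (0 : Fin 6)) = (u + 1, v + 0) := rfl
  have e1 : rt ((u, v), (1 : Fin 6)) = (u + 0, v + 1) := rfl
  have e2 : rt ((u, v), (2 : Fin 6)) = (u + -1, v + 1) := rfl
  have e3 : rt ((u, v), (3 : Fin 6)) = (u + -1, v + 0) := rfl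
  have e4 : rt ((u, v), (4 : Fin 6)) = (u + 0, v + -1) := rfl
  have e5 : rt ((u, v), (5 : Fin 6)) = (u + 1, v + -1) := rfl
  simp only at v1 h1
  rw [bd_true] at v1
  rw [mem_Dom] at h1
  have hk : k = 0 ∨ k = 1 ∨ k = 2 ∨ k = 3 ∨ k = 4 ∨ k = 5 := by
    fin_cases k <;> simp
  rcases hk with rfl | rfl | rfl | rfl | rfl | rfl
  · rw [e0, bd_false] at v2
    rw [e0, mem_Dom] at h2
    have h3 : (v ≤ 0 ∧ u = a) ∨ (L < v ∧ u = b) := by omega
    rcases h3 with ⟨h3, rfl⟩ | ⟨h3, rfl⟩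
    · exact Or.inl ⟨v, h3, Or.inl rfl⟩
    · exact Or.inr ⟨v, h3, Or.inl rfl⟩
  · exfalso
    rw [e1, bd_false] at v2
    rw [e1, mem_Dom] at h2
    omega
  · exfalso
    rw [e2, bd_false] at v2
    rw [e2, mem_Dom] at h2
    omega
  · exfalso
    rw [e3, bd_false] at v2
    rw [e3, mem_Dom] at h2
    omega
  · exfalso
    rw [e4, bd_false] at v2
    rw [e4, mem_Dom] at h2
    omega
  · rw [e5, bd_false] at v2
    rw [e5, mem_Dom] at h2
    have h3 : (v ≤ 0 ∧ u = a) ∨ (L < v ∧ u = b) := by omega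
    rcases h3 with ⟨h3, rfl⟩ | ⟨h3, rfl⟩
    · exact Or.inl ⟨v, h3, Or.inr rfl⟩
    · exact Or.inr ⟨v, h3, Or.inr rfl⟩

theorem step5 {σ : ℤ × ℤ → Bool} {u v : ℤ} (h : σ (u + 1, v) = false) :
    step σ ((u, v), 5) = ((u, v), 0) := by
  have e : front ((u, v), (5 : Fin 6)) = (u + 1, v + 0) := rfl
  unfold step
  rw [e, add_zero, h]
  simp only [Bool.false_eq_true, if_false]
  rfl

theorem step0 {σ : ℤ × ℤ → Bool} {u v : ℤ} (h : σ (u, v + 1) = true) :
    step σ ((u, v), 0) = ((u, v + 1), 5) := by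
  have e : front ((u, v), (0 : Fin 6)) = (u + 0, v + 1) := rfl
  unfold step
  rw [e, add_zero, h]
  simp only [if_true]
  rfl

section

variable {W L : ℕ} {a b : ℤ} {σ : ℤ × ℤ → Bool}

theorem val_true (hB : Bdy W L a b σ) {u v : ℤ} (h : (u, v) ∉ Dom W L)
    (h2 : (v ≤ 0 ∧ u ≤ a) ∨ (0 < v ∧ v ≤ L ∧ u ≤ 0) ∨ (0 < v ∧ L < v ∧ u ≤ b)) :
    σ (u, v) = true := by
  rw [hB _ h, bd_true]
  exact h2

theorem val_false (hB : Bdy W L a b σ) {u v : ℤ} (h : (u, v) ∉ Dom W L)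
    (h2 : (v ≤ 0 ∧ a < u) ∨ (0 < v ∧ v ≤ L ∧ 0 < u) ∨ (0 < v ∧ L < v ∧ b < u)) :
    σ (u, v) = false := by
  rw [hB _ h, bd_false]
  exact h2

theorem bot5 (hB : Bdy W L a b σ) {v : ℤ} (hv : v ≤ 0) : step σ ((a, v), 5) = ((a, v), 0) := by
  refine step5 (val_false hB ?_ ?_)
  · rw [mem_Dom]
    omega
  · omega

theorem bot0 (hB : Bdy W L a b σ) {v : ℤ} (hv : v + 1 ≤ 0) :
    step σ ((a, v), 0) = ((a, v + 1), 5) := by
  refine step0 (val_true hB ?_ ?_)
  · rw [mem_Dom]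
    omega
  · omega

theorem top5 (hB : Bdy W L a b σ) {v : ℤ} (hv : L < v) : step σ ((b, v), 5) = ((b, v), 0) := by
  refine step5 (val_false hB ?_ ?_)
  · rw [mem_Dom]
    omega
  · omega

theorem top0 (hB : Bdy W L a b σ) {v : ℤ} (hv : L < v) :
    step σ ((b, v), 0) = ((b, v + 1), 5) := by
  refine step0 (val_true hB ?_ ?_)
  · rw [mem_Dom]
    omega
  · omega

theorem reach (hB : Bdy W L a b σ) (m : ℕ) :
    ∃ j, (step σ)^[j] ((a, -(m : ℤ)), 0) = start a := by
  induction m with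
  | zero => exact ⟨0, by simp [start]⟩
  | succ m ih =>
    obtain ⟨j, hj⟩ := ih
    refine ⟨j + 2, ?_⟩
    rw [Function.iterate_add_apply]
    have h1 : (step σ)^[2] ((a, -((m + 1 : ℕ) : ℤ)), 0) = ((a, -(m : ℤ)), 0) := by
      show step σ (step σ ((a, -((m + 1 : ℕ) : ℤ)), 0)) = _
      rw [bot0 hB (by push_cast; omega)]
      have e : -((m + 1 : ℕ) : ℤ) + 1 = -(m : ℤ) := by push_cast; ring
      rw [e, bot5 hB (by omega)]
    rw [h1, hj]

theorem up (hB : Bdy W L a b σ) {v : ℤ} (hv : L < v) (m : ℕ) :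
    (step σ)^[m * 2] ((b, v), 0) = ((b, v + m), 0) := by
  induction m with
  | zero => simp
  | succ m ih =>
    have e : (m + 1) * 2 = 2 + m * 2 := by ring
    rw [e, Function.iterate_add_apply, ih]
    show step σ (step σ ((b, v + m), 0)) = _
    rw [top0 hB (by omega), top5 hB (by omega)]
    have e2 : v + (m : ℤ) + 1 = v + ((m + 1 : ℕ) : ℤ) := by push_cast; ring
    rw [e2]

theorem not_per_bot0 (hexit : S_EXIT) (hP : Par W L a b) (hB : Bdy W L a b σ) {v : ℤ}
    (hv : v ≤ 0) : ¬ Per σ ((a, v), 0) := by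
  intro h
  obtain ⟨m, hm⟩ : ∃ m : ℕ, v = -(m : ℤ) := ⟨(-v).toNat, by omega⟩
  rw [hm] at h
  obtain ⟨j, hj⟩ := reach (a := a) hB m
  have h1 := per_iter h j
  rw [hj] at h1
  obtain ⟨i, hi, h2⟩ := h1
  exact (hexit W L a b σ hP hB).2.2 i hi h2

theorem not_per_top0 (hB : Bdy W L a b σ) {v : ℤ} (hv : L < v) : ¬ Per σ ((b, v), 0) := by
  rintro ⟨i, hi, h⟩
  have h1 := per_mul h 2
  rw [up hB hv i] at h1
  simp only [Prod.mk.injEq] at h1
  omega

theorem per_dom (hexit : S_EXIT) (hP : Par W L a b) (hB : Bdy W L a b σ) {s : St}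
    (hv : Val σ s) (hp : Per σ s) : s ∈ FD W L := by
  apply mem_FD
  by_contra hcon
  push Not at hcon
  rcases bdry hP hB hv hcon.1 hcon.2 with ⟨v, h1, rfl | rfl⟩ | ⟨v, h1, rfl | rfl⟩
  · exact not_per_bot0 hexit hP hB h1 hp
  · have h2 := per_iter hp 1
    rw [Function.iterate_one, bot5 hB h1] at h2
    exact not_per_bot0 hexit hP hB h1 h2
  · exact not_per_top0 hB h1 hp
  · have h2 := per_iter hp 1
    rw [Function.iterate_one, top5 hB h1] at h2
    exact not_per_top0 hB h1 h2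

theorem loops_fin (hinj : S_INJ) (hexit : S_EXIT) (hP : Par W L a b) (hB : Bdy W L a b σ) :
    (loops σ).Finite := by
  refine ((FD W L).finite_toSet.finite_subsets).subset ?_
  rintro O ⟨s, hv, hp, rfl⟩
  rintro t ⟨j, rfl⟩
  exact per_dom hexit hP hB (val_iter hinj hv j) (per_iter hp j)

end

theorem step_eq {σ σ' : ℤ × ℤ → Bool} {f : ℤ × ℤ} (h : ∀ g, g ≠ f → σ' g = σ g) {s : St}
    (hs : ¬ Tch f s) : step σ' s = step σ s := by
  unfold step
  rw [h _ fun e => hs (Or.inr (Or.inr e))]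

theorem iter_eq {σ σ' : ℤ × ℤ → Bool} {f : ℤ × ℤ} (h : ∀ g, g ≠ f → σ' g = σ g) {s : St}
    (hs : ∀ t ∈ orb σ' s, ¬ Tch f t) (i : ℕ) : (step σ)^[i] s = (step σ')^[i] s := by
  induction i with
  | zero => rfl
  | succ i ih =>
    rw [Function.iterate_succ_apply', Function.iterate_succ_apply', ih,
      step_eq h (hs _ ⟨i, rfl⟩)]

theorem loops_le {σ σ' : ℤ × ℤ → Bool} {f : ℤ × ℤ} (h : ∀ g, g ≠ f → σ' g = σ g)
    (hf : (loops σ).Finite) : (loops σ').ncard ≤ (loops σ).ncard + 18 := by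
  have hsub : loops σ' ⊆ loops σ ∪ orb σ' '' (touch f : Set St) := by
    rintro O ⟨s, hv, hp, rfl⟩
    by_cases ht : ∃ t ∈ orb σ' s, Tch f t
    · obtain ⟨t, ht1, ht2⟩ := ht
      right
      exact ⟨t, mem_touch ht2, orb_eq hp ht1⟩
    · push Not at ht
      left
      have hi := iter_eq h ht
      have hs : ¬ Tch f s := ht s ⟨0, rfl⟩
      refine ⟨s, ⟨?_, ?_⟩, ?_, ?_⟩
      · rw [← h _ fun e => hs (Or.inl e)]
        exact hv.1
      · rw [← h _ fun e => hs (Or.inr (Or.inl e))]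
        exact hv.2
      · obtain ⟨i, h1, h2⟩ := hp
        exact ⟨i, h1, by rw [hi, h2]⟩
      · ext t
        constructor
        · rintro ⟨i, h1⟩
          exact ⟨i, by rw [hi, h1]⟩
        · rintro ⟨i, h1⟩
          exact ⟨i, by rw [← hi, h1]⟩
  have hfin : (loops σ ∪ orb σ' '' (touch f : Set St)).Finite :=
    hf.union ((touch f).finite_toSet.image _)
  refine (Set.ncard_le_ncard hsub hfin).trans ((Set.ncard_union_le _ _).trans ?_)
  have h1 : (orb σ' '' (touch f : Set St)).ncard ≤ 18 := by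
    refine (Set.ncard_image_le (touch f).finite_toSet).trans ?_
    rw [Set.ncard_coe_finset]
    exact touch_card f
  omega

theorem edg_le {W L : ℕ} {σ σ' : ℤ × ℤ → Bool} {f : ℤ × ℤ} (h : ∀ g, g ≠ f → σ' g = σ g) :
    edg W L σ' ≤ edg W L σ + 12 := by
  unfold edg
  have hfin : {s : St | Val σ s ∧ (s.1 ∈ Dom W L ∨ rt s ∈ Dom W L)}.Finite :=
    (FD W L).finite_toSet.subset fun s hs => mem_FD hs.2
  have hsub : {s : St | Val σ' s ∧ (s.1 ∈ Dom W L ∨ rt s ∈ Dom W L)} ⊆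
      {s : St | Val σ s ∧ (s.1 ∈ Dom W L ∨ rt s ∈ Dom W L)} ∪ (near f : Set St) := by
    intro s hs
    by_cases hn : s.1 = f ∨ rt s = f
    · right
      exact mem_near hn
    · push Not at hn
      left
      refine ⟨⟨?_, ?_⟩, hs.2⟩
      · rw [← h _ hn.1]
        exact hs.1.1
      · rw [← h _ hn.2]
        exact hs.1.2
  refine (Set.ncard_le_ncard hsub (hfin.union (near f).finite_toSet)).trans
    ((Set.ncard_union_le _ _).trans ?_)
  have h1 := near_card f
  rw [Set.ncard_coe_finset]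
  omega

theorem pow_cmp {z : ℝ} (hz : 0 < z) {e e' k : ℕ} (h1 : e' ≤ e + k) (h2 : e ≤ e' + k) :
    (min z (1 / z)) ^ k * z ^ e ≤ z ^ e' := by
  have hz' : 0 < 1 / z := by positivity
  have hm : 0 < min z (1 / z) := lt_min hz hz'
  have hm1 : min z (1 / z) ≤ 1 := by
    rcases le_total z 1 with h | h
    · exact (min_le_left _ _).trans h
    · refine (min_le_right _ _).trans ?_
      rw [div_le_one hz]
      exact h
  rcases le_total e e' with h | h
  · obtain ⟨d, rfl⟩ := Nat.exists_eq_add_of_le h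
    have hd : d ≤ k := by omega
    have h3 : (min z (1 / z)) ^ k ≤ z ^ d :=
      (pow_le_pow_of_le_one hm.le hm1 hd).trans (pow_le_pow_left₀ hm.le (min_le_left _ _) d)
    rw [pow_add, mul_comm (z ^ e)]
    exact mul_le_mul_of_nonneg_right h3 (by positivity)
  · obtain ⟨d, rfl⟩ := Nat.exists_eq_add_of_le h
    have hd : d ≤ k := by omega
    have h3 : (min z (1 / z)) ^ k ≤ (1 / z) ^ d :=
      (pow_le_pow_of_le_one hm.le hm1 hd).trans (pow_le_pow_left₀ hm.le (min_le_right _ _) d)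
    calc (min z (1 / z)) ^ k * z ^ (e' + d) ≤ (1 / z) ^ d * z ^ (e' + d) :=
          mul_le_mul_of_nonneg_right h3 (by positivity)
      _ = z ^ e' := by
          rw [pow_add, one_div, inv_pow]
          field_simp

/-- FE -/
theorem fe (hinj : S_INJ) (hexit : S_EXIT) : S_FE := by
  intro n x hn hx
  refine ⟨(min x (1 / x)) ^ 12 * (min n (1 / n)) ^ 18, ?_, ?_⟩
  · have h1 : 0 < min x (1 / x) := lt_min hx (by positivity)
    have h2 : 0 < min n (1 / n) := lt_min hn (by positivity)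
    positivity
  intro W L a b hP σ hB
  have hf := loops_fin hinj hexit hP hB
  refine ⟨hf, ?_, fun f hfD => ?_⟩
  · unfold wt
    positivity
  have hg : ∀ g, g ≠ f → flip f σ g = σ g := fun g hg => Function.update_of_ne hg _ _
  have hB' : Bdy W L a b (flip f σ) := by
    intro g hgD
    rw [hg g fun e => hgD (e ▸ hfD)]
    exact hB g hgD
  have hf' := loops_fin hinj hexit hP hB'
  have e1 := edg_le (W := W) (L := L) hg
  have e2 := edg_le (W := W) (L := L) (σ := flip f σ) (σ' := σ) fun g h => (hg g h).symm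
  have l1 := loops_le hg hf
  have l2 := loops_le (σ := flip f σ) (σ' := σ) (fun g h => (hg g h).symm) hf'
  have c1 := pow_cmp hx e1 e2
  have c2 := pow_cmp hn l1 l2
  unfold wt
  have c3 := mul_le_mul c1 c2 (by
    have h2 : 0 < min n (1 / n) := lt_min hn (by positivity)
    positivity) (by positivity)
  refine le_trans (le_of_eq ?_) c3
  ring

end

end Pool.Agent.N499.ON
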